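import Pool.Agent.helper14.Kus3.NumDefs

/-!
# Kusner's question, numerics, section N1: coefficient lists (helper17)
-/

open Set Metric MeasureTheory
open scoped ContDiff Topology

namespace Kusner.Num.P

theorem evL_nil (x : ℝ) : evL [] x = 0 := rfl

theorem evL_cons (a : ℚ) (l : List ℚ) (x : ℝ) : evL (a :: l) x = (a : ℝ) + x * evL l x := rfl

theorem evL_cast (l : List ℚ) (q : ℚ) : evL l (q : ℝ) = (evQ l q : ℚ) := by
  induction l with
  | nil => simp [evL, evQ]
  | cons a l ih =>
    simp only [evL, evQ, ih]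
    push_cast
    ring

theorem evL_addL (k l : List ℚ) (x : ℝ) : evL (addL k l) x = evL k x + evL l x := by
  induction k generalizing l with
  | nil => simp [addL, evL]
  | cons a k ih =>
    cases l with
    | nil => simp [addL, evL]
    | cons b l =>
      simp only [addL, evL, ih]
      push_cast
      ring

theorem evL_scL (c : ℚ) (l : List ℚ) (x : ℝ) : evL (scL c l) x = c * evL l x := by
  induction l with
  | nil => simp [scL, evL]
  | cons a l ih =>
    have h : scL c (a :: l) = (c * a) :: scL c l := rfl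
    rw [h]
    simp only [evL, ih]
    push_cast
    ring

theorem evL_mulL (k l : List ℚ) (x : ℝ) : evL (mulL k l) x = evL k x * evL l x := by
  induction k with
  | nil => simp [mulL, evL]
  | cons a k ih =>
    simp only [mulL, evL_addL, evL_scL, evL, ih]
    push_cast
    ring

theorem evL_shL (l : List ℚ) (x : ℚ) (h : ℝ) : evL (shL l x) h = evL l (x + h) := by
  induction l with
  | nil => simp [shL, evL]
  | cons a l ih =>
    simp only [shL, evL_addL, evL_mulL, evL, ih]
    push_cast
    ring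

theorem evL_continuous (l : List ℚ) : Continuous (evL l) := by
  induction l with
  | nil => exact continuous_const
  | cons a l ih =>
    have h : evL (a :: l) = fun x : ℝ => (a : ℝ) + x * evL l x := rfl
    rw [h]
    exact continuous_const.add (continuous_id.mul ih)

theorem evL_le_ubL (l : List ℚ) {δ : ℚ} {h : ℝ} (h0 : 0 ≤ h) (h1 : h ≤ δ) :
    evL l h ≤ (ubL l δ : ℚ) := by
  induction l with
  | nil => simp [ubL, evL]
  | cons a l ih =>
    simp only [evL, ubL]
    push_cast
    have hδ : (0 : ℝ) ≤ δ := le_trans h0 h1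
    have hm : (0 : ℝ) ≤ max (0 : ℝ) ((ubL l δ : ℚ) : ℝ) := le_max_left _ _
    have e1 : h * evL l h ≤ h * max (0 : ℝ) ((ubL l δ : ℚ) : ℝ) :=
      mul_le_mul_of_nonneg_left (le_trans ih (le_max_right _ _)) h0
    have e2 : h * max (0 : ℝ) ((ubL l δ : ℚ) : ℝ) ≤ δ * max (0 : ℝ) ((ubL l δ : ℚ) : ℝ) :=
      mul_le_mul_of_nonneg_right h1 hm
    linarith

/-- `ubI` is an upper bound on the interval. -/
theorem evL_le_ubI (l : List ℚ) {e0 e1 : ℚ} {e : ℝ} (h0 : (e0 : ℝ) ≤ e) (h1 : e ≤ e1) :
    evL l e ≤ (ubI l e0 e1 : ℚ) := by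
  have h := evL_le_ubL (shL l e0) (δ := e1 - e0) (h := e - e0) (by linarith)
    (by push_cast; linarith)
  rw [evL_shL] at h
  have he : (e0 : ℝ) + (e - e0) = e := by ring
  rw [he] at h
  exact h

theorem hasDerivAt_divL (l : List ℚ) (n : ℕ) (x : ℝ) :
    HasDerivAt (fun y : ℝ => y ^ (n + 1) * evL (divL l (n + 1)) y) (x ^ n * evL l x) x := by
  induction l generalizing n with
  | nil =>
    have h : (fun y : ℝ => y ^ (n + 1) * evL (divL [] (n + 1)) y) = fun _ => (0 : ℝ) := by
      funext y
      simp [divL, evL]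
    rw [h]
    simpa [evL] using hasDerivAt_const x (0 : ℝ)
  | cons a l ih =>
    have hn : ((n : ℝ) + 1) ≠ 0 := by positivity
    have h : (fun y : ℝ => y ^ (n + 1) * evL (divL (a :: l) (n + 1)) y) =
        fun y => ((a : ℝ) / ((n : ℝ) + 1)) * y ^ (n + 1) +
          y ^ (n + 1 + 1) * evL (divL l (n + 1 + 1)) y := by
      funext y
      simp only [divL, evL]
      push_cast
      ring
    rw [h]
    have h1 : HasDerivAt (fun y : ℝ => ((a : ℝ) / ((n : ℝ) + 1)) * y ^ (n + 1))
        (((a : ℝ) / ((n : ℝ) + 1)) * (((n + 1 : ℕ) : ℝ) * x ^ n)) x := by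
      have := (hasDerivAt_pow (n + 1) x).const_mul ((a : ℝ) / ((n : ℝ) + 1))
      simpa using this
    have h2 := h1.add (ih (n + 1))
    refine h2.congr_deriv ?_
    rw [evL_cons]
    push_cast
    field_simp
    ring

theorem hasDerivAt_prL (l : List ℚ) (x : ℝ) : HasDerivAt (evL (prL l)) (evL l x) x := by
  have h := hasDerivAt_divL l 0 x
  have he : (fun y : ℝ => y ^ (0 + 1) * evL (divL l (0 + 1)) y) = evL (prL l) := by
    funext y
    simp [prL, evL]
  rw [he] at h
  simpa using h

theorem integral_evL (l : List ℚ) (e0 e1 : ℚ) :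
    ∫ e in (e0 : ℝ)..e1, evL l e = (intQ l e0 e1 : ℚ) := by
  have h := intervalIntegral.integral_eq_sub_of_hasDerivAt
    (f := evL (prL l)) (f' := evL l) (a := (e0 : ℝ)) (b := (e1 : ℝ))
    (fun x _ => hasDerivAt_prL l x) ((evL_continuous l).intervalIntegrable _ _)
  rw [h, evL_cast, evL_cast]
  simp only [intQ]
  push_cast
  ring

theorem evL_phiL (w0 wt : ℚ) (e : ℝ) : evL (phiL w0 wt) e = Phi e (w0 - wt * e) := by
  simp only [phiL, evL_addL, evL_mulL, phi0, phi1, phi2, evL, Phi]
  push_cast
  ring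

end Kusner.Num.P
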